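import Pool.Agent.TH332.DW.Final
import Pool.Agent.TH332.DW.Dyn
import Pool.Agent.TH332.DW.Depth
import Pool.Agent.TH332.DW.OneDiscCompact
import Pool.Agent.TH332.DW.Witness
import Pool.Agent.TH26.NoDiscsOm

/-!
# MP_a95d19_an, Q1: the Denjoy-Wolff property does not imply property (H)

There is a bounded convex domain in `ℂ × ℂ` whose boundary contains no non-trivial analytic
disc, which has the Denjoy-Wolff property, and which has a nonempty sequential horosphere whose
closure meets the boundary in two different points.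

Credits: the auxiliary files used here were written by several seats of the team
(Pool.Agent.TH111, TH416, TH113, TH606, TH26, TH332).
-/

namespace Pool.Agent.Results.MP_a95d19_an.DenjoyWolffNotH

open Metric Set Filter Topology Pool.TH332.DW

theorem result :
    ∃ Ω : Set (ℂ × ℂ), IsOpen Ω ∧ Convex ℝ Ω ∧ Bornology.IsBounded Ω ∧ Ω.Nonempty ∧
      NoDiscs Ω ∧ DenjoyWolff Ω ∧ ¬ PropH Ω ∧
      ∃ z₀ ∈ Ω, ∃ u : ℕ → ℂ × ℂ, (∀ n, u n ∈ Ω) ∧
        ∃ p ∈ frontier Ω, Tendsto u atTop (𝓝 p) ∧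
        ∃ R : ℝ, 0 < R ∧ (horosphere Ω z₀ u R).Nonempty ∧
        ∃ q ∈ closure (horosphere Ω z₀ u R) ∩ frontier Ω,
        ∃ q' ∈ closure (horosphere Ω z₀ u R) ∩ frontier Ω, q ≠ q' := by
  have hK : KobFacts Om := kobFacts convex_Om isOpen_Om
  refine ⟨Om, isOpen_Om, convex_Om, isBounded_Om, ⟨z00, z00_mem⟩, ?_, ?_, ?_, ?_⟩
  · exact noDiscs_Om (fun z hz => rho_frontier hz)
      (fun z hz => (bounds (rho_frontier hz).le).2.2.1.trans (by norm_num))
      (fun q q' hq hq' => gg_lower hq hq')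
  · exact dw_Om hK (depth_upper hK)
      (orbit_tendsto hK (fun K hKc hKO => oneDisc_of_compact convex_Om isOpen_Om hKc hKO)
        (homothety_metric convex_Om isOpen_Om isBounded_Om))
  · exact not_propH_Om convex_Om isOpen_Om hK
  · obtain ⟨z₀, hz₀, u, hu, p, hp, hup, hne, hq⟩ := two_points_Om hK
    exact ⟨z₀, hz₀, u, hu, p, hp, hup, 1, one_pos, hne, hq⟩

end Pool.Agent.Results.MP_a95d19_an.DenjoyWolffNotH
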